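import Pool.Agent.H611R3.Defs

/-!
# Getting rid of few non-monotone gates

If a family with few non-monotone gates represents the disjunction (conjunction) of `M` copies of
a predicate, then, the product of the numbers `w + 1` being at most `M`, a family of small monotone
circuits represents the predicate in the same way.
-/

namespace Pool.Agent.H611R3

open Pool.Agent.H520R2 Pool.Agent.H520R2.NM

variable {ι : Type}

/-- Replacing the base functions of a program by others, which agree with them on `D`. -/
theorem mprog_subst {X : Type} {B B' : Set (X → Bool)} {L0 : List (X → Bool)}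
    (hL0 : MProg B' L0) (D : Set X)
    (h : ∀ b ∈ B, ∃ b', Av B' L0 b' ∧ ∀ x ∈ D, b' x = b x) {L : List (X → Bool)}
    (hL : MProg B L) :
    ∃ L', MProg B' (L' ++ L0) ∧ L'.length = L.length ∧
      ∀ f ∈ L, ∃ f' ∈ L', ∀ x ∈ D, f' x = f x := by
  induction hL with
  | nil => exact ⟨[], by simpa using hL0, rfl, by simp⟩
  | @and L f g _ hf hg ih =>
    obtain ⟨L', h1, h2, h3⟩ := ih
    have av : ∀ f, (f ∈ B ∨ f ∈ L) → ∃ f', Av B' (L' ++ L0) f' ∧ ∀ x ∈ D, f' x = f x := by
      intro f hf
      rcases hf with hf | hf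
      · obtain ⟨b', hb', hb⟩ := h f hf
        exact ⟨b', hb'.mono L', hb⟩
      · obtain ⟨f', hf', hb⟩ := h3 f hf
        exact ⟨f', Or.inr (List.mem_append_left _ hf'), hb⟩
    obtain ⟨f', hf', hf''⟩ := av f hf
    obtain ⟨g', hg', hg''⟩ := av g hg
    refine ⟨(fun x => f' x && g' x) :: L', MProg.and h1 hf' hg', by simp [h2], ?_⟩
    intro k hk
    rcases List.mem_cons.mp hk with rfl | hk
    · exact ⟨_, List.mem_cons_self, fun x hx => by rw [hf'' x hx, hg'' x hx]⟩
    · obtain ⟨k', hk', hk''⟩ := h3 k hk
      exact ⟨k', List.mem_cons_of_mem _ hk', hk''⟩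
  | @or L f g _ hf hg ih =>
    obtain ⟨L', h1, h2, h3⟩ := ih
    have av : ∀ f, (f ∈ B ∨ f ∈ L) → ∃ f', Av B' (L' ++ L0) f' ∧ ∀ x ∈ D, f' x = f x := by
      intro f hf
      rcases hf with hf | hf
      · obtain ⟨b', hb', hb⟩ := h f hf
        exact ⟨b', hb'.mono L', hb⟩
      · obtain ⟨f', hf', hb⟩ := h3 f hf
        exact ⟨f', Or.inr (List.mem_append_left _ hf'), hb⟩
    obtain ⟨f', hf', hf''⟩ := av f hf
    obtain ⟨g', hg', hg''⟩ := av g hg
    refine ⟨(fun x => f' x || g' x) :: L', MProg.or h1 hf' hg', by simp [h2], ?_⟩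
    intro k hk
    rcases List.mem_cons.mp hk with rfl | hk
    · exact ⟨_, List.mem_cons_self, fun x hx => by rw [hf'' x hx, hg'' x hx]⟩
    · obtain ⟨k', hk', hk''⟩ := h3 k hk
      exact ⟨k', List.mem_cons_of_mem _ hk', hk''⟩

/-- conjunction of a list of available functions -/
theorem and_prog {X : Type*} {B : Set (X → Bool)} {L : List (X → Bool)} (hL : MProg B L)
    (f : X → Bool) (hf : Av B L f) (gs : List (X → Bool)) (hg : ∀ g ∈ gs, Av B L g) :
    ∃ L', MProg B (L' ++ L) ∧ L'.length ≤ gs.length ∧
      Av B (L' ++ L) (fun x => f x && gs.all (fun g => g x)) := by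
  induction gs with
  | nil => exact ⟨[], by simpa using hL, by simp, by simpa using hf⟩
  | cons g gs ih =>
    obtain ⟨L', hL', hlen, hav⟩ := ih (fun g' hg' => hg g' (List.mem_cons_of_mem _ hg'))
    have p1 := MProg.and hL' hav ((hg g List.mem_cons_self).mono L')
    refine ⟨_ :: L', p1, by simp only [List.length_cons]; omega, Or.inr ?_⟩
    have : (fun x => f x && (g :: gs).all (fun g => g x)) =
        (fun x => (f x && gs.all (fun g => g x)) && g x) := by
      funext x
      simp only [List.all_cons]
      cases f x <;> cases g x <;> simp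
    rw [this]
    exact List.mem_cons_self

/-- Freezing the further gates at `x0`, upwards: a change of the bits entering them is turned
into acceptance. -/
theorem freeze_up {Z : Type} {n s : ℕ} (C : Circuit ι n) (x0 : ι → Bool)
    (f : Z → (ι → Bool) → Bool) (hf : ∀ z, MComp (WB C) s (f z)) :
    ∃ f' : Z → (ι → Bool) → Bool,
      (∀ z, MComp (VB ι) (s + (C.size + C.fanins.sum)) (f' z)) ∧
      (∀ x, x0 ≤ x → C.probes x = C.probes x0 → ∀ z, f' z x = f z x) ∧
      ∀ x, x0 ≤ x → C.probes x ≠ C.probes x0 → ∀ z, f' z x = true := by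
  obtain ⟨L, ρ, ps, hL, hlen, h1, h2, h3, h4, h5⟩ := C.frozen x0
  let qs := ps.filter (fun p => !(p x0))
  let D : Set (ι → Bool) := {x | C.probes x = C.probes x0}
  have hbase : ∀ b ∈ WB C, ∃ b', Av (VB ι) L b' ∧ ∀ x ∈ D, b' x = b x := by
    rintro b (hb | ⟨j, rfl⟩)
    · exact ⟨b, Or.inl hb, fun _ _ => rfl⟩
    · exact ⟨ρ j, h1 j, fun x hx => (h4 x (h5 x hx)).2 j⟩
  have key : ∀ z, ∃ f', MComp (VB ι) (s + (C.size + C.fanins.sum)) f' ∧
      (∀ x ∈ D, f' x = (f z x || qs.any (fun g => g x))) ∧
      ∀ x, qs.any (fun g => g x) = true → f' x = true := by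
    intro z
    obtain ⟨Lz, hLz, hlz, hfz⟩ := hf z
    obtain ⟨L1, a1, a2, a3⟩ := mprog_subst hL D hbase hLz
    obtain ⟨k, hk, hk'⟩ : ∃ k, Av (VB ι) (L1 ++ L) k ∧ ∀ x ∈ D, k x = f z x := by
      rcases hfz with hfz | hfz
      · obtain ⟨b', hb', hb⟩ := hbase _ hfz
        exact ⟨b', hb'.mono L1, hb⟩
      · obtain ⟨f', hf', hb⟩ := a3 _ hfz
        exact ⟨f', Or.inr (List.mem_append_left _ hf'), hb⟩
    obtain ⟨L', hL', hlen', hav⟩ := or_prog a1 k hk qs
      (fun g hg => (h3 g (List.mem_filter.mp hg).1).mono L1)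
    refine ⟨_, ⟨L' ++ (L1 ++ L), hL', ?_, hav⟩, fun x hx => by rw [hk' x hx], fun x hx => by
      simp [hx]⟩
    have : qs.length ≤ ps.length := List.length_filter_le _ _
    simp only [List.length_append]
    omega
  choose f' hf1 hf2 hf3 using key
  refine ⟨f', hf1, fun x _ hx z => ?_, fun x hle hx z => ?_⟩
  · rw [hf2 z x hx]
    have hq : qs.any (fun g => g x) = false := by
      rw [List.any_eq_false]
      intro p hp
      rw [List.mem_filter] at hp
      rw [h5 x hx p hp.1]
      simpa using hp.2
    simp [hq]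
  · apply hf3
    have : ¬ ∀ p ∈ ps, p x = p x0 := fun hall => hx (h4 x hall).1
    push Not at this
    obtain ⟨p, hp, hpx⟩ := this
    have hle := mono_of_av hL p (h3 p hp) x0 x hle
    have hp0 : p x0 = false := by
      revert hle hpx
      cases p x <;> cases p x0 <;> simp
    have hp1 : p x = true := by
      revert hpx
      rw [hp0]
      cases p x <;> simp
    rw [List.any_eq_true]
    exact ⟨p, List.mem_filter.mpr ⟨hp, by simp [hp0]⟩, hp1⟩

/-- Freezing the further gates at `x0`, downwards: a change of the bits entering them is turned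
into rejection. -/
theorem freeze_down {Z : Type} {n s : ℕ} (C : Circuit ι n) (x0 : ι → Bool)
    (f : Z → (ι → Bool) → Bool) (hf : ∀ z, MComp (WB C) s (f z)) :
    ∃ f' : Z → (ι → Bool) → Bool,
      (∀ z, MComp (VB ι) (s + (C.size + C.fanins.sum)) (f' z)) ∧
      (∀ x, x ≤ x0 → C.probes x = C.probes x0 → ∀ z, f' z x = f z x) ∧
      ∀ x, x ≤ x0 → C.probes x ≠ C.probes x0 → ∀ z, f' z x = false := by
  obtain ⟨L, ρ, ps, hL, hlen, h1, h2, h3, h4, h5⟩ := C.frozen x0
  let qs := ps.filter (fun p => p x0)
  let D : Set (ι → Bool) := {x | C.probes x = C.probes x0}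
  have hbase : ∀ b ∈ WB C, ∃ b', Av (VB ι) L b' ∧ ∀ x ∈ D, b' x = b x := by
    rintro b (hb | ⟨j, rfl⟩)
    · exact ⟨b, Or.inl hb, fun _ _ => rfl⟩
    · exact ⟨ρ j, h1 j, fun x hx => (h4 x (h5 x hx)).2 j⟩
  have key : ∀ z, ∃ f', MComp (VB ι) (s + (C.size + C.fanins.sum)) f' ∧
      (∀ x ∈ D, f' x = (f z x && qs.all (fun g => g x))) ∧
      ∀ x, qs.all (fun g => g x) = false → f' x = false := by
    intro z
    obtain ⟨Lz, hLz, hlz, hfz⟩ := hf z
    obtain ⟨L1, a1, a2, a3⟩ := mprog_subst hL D hbase hLz
    obtain ⟨k, hk, hk'⟩ : ∃ k, Av (VB ι) (L1 ++ L) k ∧ ∀ x ∈ D, k x = f z x := by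
      rcases hfz with hfz | hfz
      · obtain ⟨b', hb', hb⟩ := hbase _ hfz
        exact ⟨b', hb'.mono L1, hb⟩
      · obtain ⟨f', hf', hb⟩ := a3 _ hfz
        exact ⟨f', Or.inr (List.mem_append_left _ hf'), hb⟩
    obtain ⟨L', hL', hlen', hav⟩ := and_prog a1 k hk qs
      (fun g hg => (h3 g (List.mem_filter.mp hg).1).mono L1)
    refine ⟨_, ⟨L' ++ (L1 ++ L), hL', ?_, hav⟩, fun x hx => by rw [hk' x hx], fun x hx => by
      simp [hx]⟩
    have : qs.length ≤ ps.length := List.length_filter_le _ _
    simp only [List.length_append]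
    omega
  choose f' hf1 hf2 hf3 using key
  refine ⟨f', hf1, fun x _ hx z => ?_, fun x hle hx z => ?_⟩
  · rw [hf2 z x hx]
    have hq : qs.all (fun g => g x) = true := by
      rw [List.all_eq_true]
      intro p hp
      rw [List.mem_filter] at hp
      rw [h5 x hx p hp.1]
      exact hp.2
    simp [hq]
  · apply hf3
    have : ¬ ∀ p ∈ ps, p x = p x0 := fun hall => hx (h4 x hall).1
    push Not at this
    obtain ⟨p, hp, hpx⟩ := this
    have hle := mono_of_av hL p (h3 p hp) x x0 hle
    have hp0 : p x0 = true := by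
      revert hle hpx
      cases p x <;> cases p x0 <;> simp
    have hp1 : p x = false := by
      revert hpx
      rw [hp0]
      cases p x <;> simp
    rw [List.all_eq_false]
    exact ⟨p, List.mem_filter.mpr ⟨hp, hp0⟩, by simp [hp1]⟩

/-- Along a chain with a change in one of the circuits at every step. -/
theorem multi_chain {p : ℕ} {n : Fin p → ℕ} (C : ∀ l, Circuit ι (n l)) (m : ℕ)
    (x : ℕ → ι → Bool) (hx : ∀ i < m, x i ≤ x (i + 1))
    (hp : ∀ i < m, ∃ l, (C l).probes (x i) ≠ (C l).probes (x (i + 1))) :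
    m ≤ ∑ l, (((C l).fanins.map (· + 1)).prod - 1) := by
  have h : ∀ i ≤ m, i ≤ ∑ l, (C l).rank (x i) := by
    intro i
    induction i with
    | zero => intro _; exact Nat.zero_le _
    | succ i ih =>
      intro hi
      have h1 := ih (by omega)
      have h2 : ∑ l, (C l).rank (x i) < ∑ l, (C l).rank (x (i + 1)) := by
        apply Finset.sum_lt_sum
        · intro l _
          rcases (C l).rank_mono (hx i (by omega)) with h2 | ⟨h2, _, _⟩
          · omega
          · omega
        · obtain ⟨l, hl⟩ := hp i (by omega)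
          refine ⟨l, Finset.mem_univ _, ?_⟩
          rcases (C l).rank_mono (hx i (by omega)) with h2 | ⟨_, h2, _⟩
          · exact h2
          · exact absurd h2 hl
      omega
  refine (h m le_rfl).trans (Finset.sum_le_sum fun l _ => ?_)
  have := (C l).rank_lt (x m)
  omega

/-- Inputs which vanish outside the `M` blocks. -/
def Supp {κ : Type} {M : ℕ} (g : Fin M → κ → ι) (b : Bool) (x : ι → Bool) : Prop :=
  ∀ i, (∀ j k, g j k ≠ i) → x i = b

open Classical in
/-- Writing `y` into block number `j`. -/
noncomputable def put {κ : Type} {M : ℕ} (g : Fin M → κ → ι) (x : ι → Bool) (j : Fin M)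
    (y : κ → Bool) : ι → Bool :=
  fun i => if h : ∃ k, g j k = i then y h.choose else x i

theorem put_same {κ : Type} {M : ℕ} {g : Fin M → κ → ι}
    (hg : ∀ j k j' k', g j k = g j' k' → j = j' ∧ k = k') (x : ι → Bool) (j : Fin M)
    (y : κ → Bool) (k : κ) : put g x j y (g j k) = y k := by
  have h : ∃ k', g j k' = g j k := ⟨k, rfl⟩
  rw [put, dif_pos h]
  congr 1
  exact (hg _ _ _ _ h.choose_spec).2

theorem put_other {κ : Type} {M : ℕ} {g : Fin M → κ → ι}
    (hg : ∀ j k j' k', g j k = g j' k' → j = j' ∧ k = k') (x : ι → Bool) {j j' : Fin M}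
    (hj : j' ≠ j) (y : κ → Bool) (k : κ) : put g x j y (g j' k) = x (g j' k) := by
  have h : ¬ ∃ k', g j k' = g j' k := by
    rintro ⟨k', hk'⟩
    exact hj (hg _ _ _ _ hk').1.symm
  rw [put, dif_neg h]

theorem put_supp {κ : Type} {M : ℕ} {g : Fin M → κ → ι} {b : Bool} {x : ι → Bool}
    (hx : Supp g b x) (j : Fin M) (y : κ → Bool) : Supp g b (put g x j y) := by
  intro i hi
  have h : ¬ ∃ k', g j k' = i := by
    rintro ⟨k', hk'⟩
    exact hi _ _ hk'
  rw [put, dif_neg h]
  exact hx i hi

theorem put_vb {κ : Type} {M : ℕ} (g : Fin M → κ → ι) (x : ι → Bool) (j : Fin M) :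
    ∀ b ∈ VB ι, b ∘ (fun y : κ → Bool => put g x j y) ∈ VB κ := by
  rintro b (⟨c, rfl⟩ | ⟨i, rfl⟩)
  · exact Or.inl ⟨c, rfl⟩
  · by_cases h : ∃ k, g j k = i
    · refine Or.inr ⟨h.choose, ?_⟩
      funext y
      simp only [Function.comp, put, dif_pos h]
    · refine Or.inl ⟨x i, ?_⟩
      funext y
      simp only [Function.comp, put, dif_neg h]

/-- **Transfer, for disjunctions.** -/
theorem transfer_or {κ Z : Type} {M s R : ℕ} (g : Fin M → κ → ι)
    (hg : ∀ j k j' k', g j k = g j' k' → j = j' ∧ k = k') (F : (κ → Bool) → Prop)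
    (hbot : ¬ F (fun _ => false)) (QT QF : (Z → Bool) → Prop)
    (hQT : ∀ p q : Z → Bool, (∀ z, p z = true → q z = true) → QT p → QT q)
    (f : Z → (ι → Bool) → Bool) (hf : Helped s R f) (hR : R ≤ M)
    (hT : ∀ x, Supp g false x → (∃ j, F (fun k => x (g j k))) → QT (fun z => f z x))
    (hF : ∀ x, Supp g false x → (∀ j, ¬ F (fun k => x (g j k))) → QF (fun z => f z x)) :
    ∃ f' : Z → (κ → Bool) → Bool, (∀ z, MComp (VB κ) (2 * s) (f' z)) ∧
      (∀ y, F y → QT (fun z => f' z y)) ∧ (∀ y, ¬ F y → QF (fun z => f' z y)) := by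
  by_contra hno
  obtain ⟨p, w, n, C, hC1, hC2, hC3⟩ := hf
  -- one step of the chain
  have step : ∀ (x0 : ι → Bool) (j : Fin M), Supp g false x0 → (∀ k, x0 (g j k) = false) →
      (∀ j', ¬ F (fun k => x0 (g j' k))) → ∃ y : κ → Bool, ¬ F y ∧
        ∃ l, (C l).probes x0 ≠ (C l).probes (put g x0 j y) := by
    intro x0 j hs hz hneg
    by_contra hall
    push Not at hall
    choose f1 h1 h2 h3 using fun z =>
      freeze_up (C (w z)) x0 (fun _ : Unit => f z) (fun _ => hC3 z)
    apply hno
    have hle : ∀ y, x0 ≤ put g x0 j y := by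
      intro y i
      by_cases h : ∃ k, g j k = i
      · obtain ⟨k, rfl⟩ := h
        rw [hz k]
        exact Bool.false_le _
      · rw [put, dif_neg h]
    refine ⟨fun z y => f1 z () (put g x0 j y), fun z => ?_, fun y hy => ?_, fun y hy => ?_⟩
    · obtain ⟨L, hL, hlen, hav⟩ := h1 z ()
      have := hC1 (w z)
      exact MComp.comp _ (put_vb g x0 j) ⟨L, hL, by omega, hav⟩
    · refine hQT (fun z => f z (put g x0 j y)) _ (fun z hz' => ?_) ?_
      · by_cases hp : (C (w z)).probes (put g x0 j y) = (C (w z)).probes x0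
        · exact (h2 z _ (hle y) hp ()).trans hz'
        · exact h3 z _ (hle y) hp ()
      · refine hT _ (put_supp hs j y) ⟨j, ?_⟩
        have : (fun k => put g x0 j y (g j k)) = y := by
          funext k
          exact put_same hg x0 j y k
        rw [this]
        exact hy
    · have e : (fun z => f1 z () (put g x0 j y)) = fun z => f z (put g x0 j y) := by
        funext z
        exact h2 z _ (hle y) (hall y hy (w z)).symm ()
      rw [e]
      refine hF _ (put_supp hs j y) (fun j' => ?_)
      by_cases hj : j' = j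
      · subst hj
        have : (fun k => put g x0 j' y (g j' k)) = y := by
          funext k
          exact put_same hg x0 j' y k
        rw [this]
        exact hy
      · have : (fun k => put g x0 j y (g j' k)) = fun k => x0 (g j' k) := by
          funext k
          exact put_other hg x0 hj y k
        rw [this]
        exact hneg j'
  -- the chain
  have chain : ∀ m ≤ M, ∃ x : ℕ → (ι → Bool), (∀ i < m, x i ≤ x (i + 1)) ∧
      (∀ i < m, ∃ l, (C l).probes (x i) ≠ (C l).probes (x (i + 1))) ∧ Supp g false (x m) ∧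
      (∀ j : Fin M, m ≤ j.val → ∀ k, x m (g j k) = false) ∧
      ∀ j, ¬ F (fun k => x m (g j k)) := by
    intro m
    induction m with
    | zero =>
      intro _
      exact ⟨fun _ _ => false, fun i hi => absurd hi (Nat.not_lt_zero i),
        fun i hi => absurd hi (Nat.not_lt_zero i), fun _ _ => rfl, fun _ _ _ => rfl,
        fun _ => hbot⟩
    | succ m ih =>
      intro hm
      obtain ⟨x, h1, h2, h3, h4, h5⟩ := ih (by omega)
      obtain ⟨y, hy, hpr⟩ := step (x m) ⟨m, hm⟩ h3 (h4 _ le_rfl) h5
      refine ⟨fun i => if i ≤ m then x i else put g (x m) ⟨m, hm⟩ y, ?_, ?_, ?_, ?_, ?_⟩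
      · intro i hi
        by_cases him : i = m
        · subst him
          beta_reduce
          rw [if_pos le_rfl, if_neg (by omega)]
          intro i'
          by_cases h : ∃ k, g ⟨i, hm⟩ k = i'
          · obtain ⟨k, rfl⟩ := h
            rw [h4 _ le_rfl k]
            exact Bool.false_le _
          · rw [put, dif_neg h]
        · beta_reduce
          rw [if_pos (by omega), if_pos (by omega)]
          exact h1 i (by omega)
      · intro i hi
        by_cases him : i = m
        · subst him
          beta_reduce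
          rw [if_pos le_rfl, if_neg (by omega)]
          exact hpr
        · beta_reduce
          rw [if_pos (by omega), if_pos (by omega)]
          exact h2 i (by omega)
      · beta_reduce
        rw [if_neg (by omega)]
        exact put_supp h3 _ _
      · intro j hj k
        beta_reduce
        rw [if_neg (by omega)]
        have hne : j ≠ ⟨m, hm⟩ := by
          rintro rfl
          simp at hj
        rw [put_other hg _ hne]
        exact h4 j (by omega) k
      · intro j
        beta_reduce
        rw [if_neg (by omega)]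
        by_cases hj : j = ⟨m, hm⟩
        · subst hj
          have : (fun k => put g (x m) ⟨m, hm⟩ y (g ⟨m, hm⟩ k)) = y := by
            funext k
            exact put_same hg _ _ y k
          rw [this]
          exact hy
        · have : (fun k => put g (x m) ⟨m, hm⟩ y (g j k)) = fun k => x m (g j k) := by
            funext k
            exact put_other hg _ hj y k
          rw [this]
          exact h5 j
  obtain ⟨x, h1, h2, -⟩ := chain M le_rfl
  have := multi_chain C M x h1 h2
  omega

/-- **Transfer, for conjunctions.** -/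
theorem transfer_and {κ Z : Type} {M s R : ℕ} (g : Fin M → κ → ι)
    (hg : ∀ j k j' k', g j k = g j' k' → j = j' ∧ k = k') (F : (κ → Bool) → Prop)
    (htop : F (fun _ => true)) (QT QF : (Z → Bool) → Prop)
    (hQF : ∀ p q : Z → Bool, (∀ z, q z = true → p z = true) → QF p → QF q)
    (f : Z → (ι → Bool) → Bool) (hf : Helped s R f) (hR : R ≤ M)
    (hT : ∀ x, Supp g true x → (∀ j, F (fun k => x (g j k))) → QT (fun z => f z x))
    (hF : ∀ x, Supp g true x → (∃ j, ¬ F (fun k => x (g j k))) → QF (fun z => f z x)) :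
    ∃ f' : Z → (κ → Bool) → Bool, (∀ z, MComp (VB κ) (2 * s) (f' z)) ∧
      (∀ y, F y → QT (fun z => f' z y)) ∧ (∀ y, ¬ F y → QF (fun z => f' z y)) := by
  by_contra hno
  obtain ⟨p, w, n, C, hC1, hC2, hC3⟩ := hf
  -- one step of the chain
  have step : ∀ (x0 : ι → Bool) (j : Fin M), Supp g true x0 → (∀ k, x0 (g j k) = true) →
      (∀ j', F (fun k => x0 (g j' k))) → ∃ y : κ → Bool, F y ∧
        ∃ l, (C l).probes x0 ≠ (C l).probes (put g x0 j y) := by
    intro x0 j hs hz hpos
    by_contra hall
    push Not at hall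
    choose f1 h1 h2 h3 using fun z =>
      freeze_down (C (w z)) x0 (fun _ : Unit => f z) (fun _ => hC3 z)
    apply hno
    have hle : ∀ y, put g x0 j y ≤ x0 := by
      intro y i
      by_cases h : ∃ k, g j k = i
      · obtain ⟨k, rfl⟩ := h
        rw [hz k]
        exact Bool.le_true _
      · rw [put, dif_neg h]
    refine ⟨fun z y => f1 z () (put g x0 j y), fun z => ?_, fun y hy => ?_, fun y hy => ?_⟩
    · obtain ⟨L, hL, hlen, hav⟩ := h1 z ()
      have := hC1 (w z)
      exact MComp.comp _ (put_vb g x0 j) ⟨L, hL, by omega, hav⟩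
    · have e : (fun z => f1 z () (put g x0 j y)) = fun z => f z (put g x0 j y) := by
        funext z
        exact h2 z _ (hle y) (hall y hy (w z)).symm ()
      rw [e]
      refine hT _ (put_supp hs j y) (fun j' => ?_)
      by_cases hj : j' = j
      · subst hj
        have : (fun k => put g x0 j' y (g j' k)) = y := by
          funext k
          exact put_same hg x0 j' y k
        rw [this]
        exact hy
      · have : (fun k => put g x0 j y (g j' k)) = fun k => x0 (g j' k) := by
          funext k
          exact put_other hg x0 hj y k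
        rw [this]
        exact hpos j'
    · refine hQF (fun z => f z (put g x0 j y)) _ (fun z hz' => ?_) ?_
      · by_cases hp : (C (w z)).probes (put g x0 j y) = (C (w z)).probes x0
        · exact (h2 z _ (hle y) hp ()).symm.trans hz'
        · exact Bool.noConfusion ((h3 z _ (hle y) hp ()).symm.trans hz')
      · refine hF _ (put_supp hs j y) ⟨j, ?_⟩
        have : (fun k => put g x0 j y (g j k)) = y := by
          funext k
          exact put_same hg x0 j y k
        rw [this]
        exact hy
  -- the chain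
  have chain : ∀ m ≤ M, ∃ x : ℕ → (ι → Bool), (∀ i < m, x i ≤ x (i + 1)) ∧
      (∀ i < m, ∃ l, (C l).probes (x i) ≠ (C l).probes (x (i + 1))) ∧ Supp g true (x 0) ∧
      (∀ j : Fin M, m ≤ j.val → ∀ k, x 0 (g j k) = true) ∧
      ∀ j, F (fun k => x 0 (g j k)) := by
    intro m
    induction m with
    | zero =>
      intro _
      exact ⟨fun _ _ => true, fun i hi => absurd hi (Nat.not_lt_zero i),
        fun i hi => absurd hi (Nat.not_lt_zero i), fun _ _ => rfl, fun _ _ _ => rfl,
        fun _ => htop⟩
    | succ m ih =>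
      intro hm
      obtain ⟨x, h1, h2, h3, h4, h5⟩ := ih (by omega)
      obtain ⟨y, hy, hpr⟩ := step (x 0) ⟨m, hm⟩ h3 (h4 _ le_rfl) h5
      refine ⟨fun i => if i = 0 then put g (x 0) ⟨m, hm⟩ y else x (i - 1), ?_, ?_, ?_, ?_, ?_⟩
      · intro i hi
        by_cases him : i = 0
        · subst him
          beta_reduce
          rw [if_pos rfl, if_neg (by omega)]
          intro i'
          by_cases h : ∃ k, g ⟨m, hm⟩ k = i'
          · obtain ⟨k, rfl⟩ := h
            rw [show (0 + 1 - 1 : ℕ) = 0 from rfl, h4 _ le_rfl k]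
            exact Bool.le_true _
          · rw [put, dif_neg h]
        · beta_reduce
          rw [if_neg him, if_neg (by omega)]
          have := h1 (i - 1) (by omega)
          rwa [show i - 1 + 1 = i + 1 - 1 by omega] at this
      · intro i hi
        by_cases him : i = 0
        · subst him
          beta_reduce
          rw [if_pos rfl, if_neg (by omega)]
          obtain ⟨l, hl⟩ := hpr
          exact ⟨l, hl.symm⟩
        · beta_reduce
          rw [if_neg him, if_neg (by omega)]
          have := h2 (i - 1) (by omega)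
          rwa [show i - 1 + 1 = i + 1 - 1 by omega] at this
      · beta_reduce
        rw [if_pos rfl]
        exact put_supp h3 _ _
      · intro j hj k
        beta_reduce
        rw [if_pos rfl]
        have hne : j ≠ ⟨m, hm⟩ := by
          rintro rfl
          simp at hj
        rw [put_other hg _ hne]
        exact h4 j (by omega) k
      · intro j
        beta_reduce
        rw [if_pos rfl]
        by_cases hj : j = ⟨m, hm⟩
        · subst hj
          have : (fun k => put g (x 0) ⟨m, hm⟩ y (g ⟨m, hm⟩ k)) = y := by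
            funext k
            exact put_same hg _ _ y k
          rw [this]
          exact hy
        · have : (fun k => put g (x 0) ⟨m, hm⟩ y (g j k)) = fun k => x 0 (g j k) := by
            funext k
            exact put_other hg _ hj y k
          rw [this]
          exact h5 j
  obtain ⟨x, h1, h2, -⟩ := chain M le_rfl
  have := multi_chain C M x h1 h2
  omega

end Pool.Agent.H611R3
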