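import Pool.Agent.H611R3.AltNegDefs
import Pool.Agent.H611R3.Transfer
import Pool.Agent.H611R2.TowerEmb
import Pool.Agent.H611R2.GuessHier

/-!
# Alternating quantifiers, random bits, guesses: getting rid of few non-monotone gates
-/

namespace Pool.Agent.H611R3

open Finset Pool.Agent.H520R2 Pool.Agent.H520R2.NM Pool.Agent.H611R2

theorem Alt.mono {U : Type} {n : ℕ} : ∀ {e : Bool} {R R' : (Fin n → U) → Prop},
    (∀ w, R w → R' w) → Alt e n R → Alt e n R' := by
  induction n with
  | zero => intro e R R' h; cases e <;> exact h _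
  | succ n ih =>
    intro e R R' h
    cases e
    · exact fun h1 u => ih (fun w => h _) (h1 u)
    · rintro ⟨u, hu⟩
      exact ⟨u, ih (fun w => h _) hu⟩

/-- The families of circuits on one of `M` copies of `κ`. -/
theorem pair_inj {M : ℕ} {κ : Type} (j : Fin M) (k : κ) (j' : Fin M) (k' : κ)
    (h : (j, k) = (j', k')) : j = j' ∧ k = k' := by
  rw [Prod.mk.injEq] at h
  exact h

theorem bp_transfer_or {κ : Type} {e : Bool} {d G s K M : ℕ} (F : (κ → Bool) → Prop)
    (hbot : ¬ F (fun _ => false))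
    (h : BPAltNeg e d G s K (fun x : Fin M × κ → Bool => ∃ j, F (fun p => x (j, p))))
    (hK : K ≤ M) : BPAltMono e d G (2 * s) F := by
  classical
  obtain ⟨R, f, hf, hF1, hF2⟩ := h
  obtain ⟨f', h1, h2, h3⟩ := transfer_or (fun (j : Fin M) (k : κ) => (j, k)) pair_inj F hbot
    (fun p : (Fin R → Bool) × (Fin d → Fin G → Bool) → Bool =>
      3 * (univ.filter (fun ρ => ¬ Alt e d (fun z => p (ρ, z) = true))).card ≤ 2 ^ R)
    (fun p : (Fin R → Bool) × (Fin d → Fin G → Bool) → Bool =>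
      3 * (univ.filter (fun ρ => Alt e d (fun z => p (ρ, z) = true))).card ≤ 2 ^ R)
    (fun p q hpq hp => le_trans (Nat.mul_le_mul_left 3 (card_le_card (fun ρ hρ => by
      rw [mem_filter] at hρ ⊢
      exact ⟨hρ.1, fun hc => hρ.2 (Alt.mono (fun z hz => hpq _ hz) hc)⟩))) hp)
    f hf hK
    (fun x _ hj => by convert hF1 x hj)
    (fun x _ hj => by convert hF2 x (fun ⟨j, hj'⟩ => hj j hj'))
  exact ⟨R, fun ρ z => f' (ρ, z), fun ρ z => h1 (ρ, z), fun x hx => by convert h2 x hx,
    fun x hx => by convert h3 x hx⟩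

theorem bp_transfer_and {κ : Type} {e : Bool} {d G s K M : ℕ} (F : (κ → Bool) → Prop)
    (htop : F (fun _ => true))
    (h : BPAltNeg e d G s K (fun x : Fin M × κ → Bool => ∀ j, F (fun p => x (j, p))))
    (hK : K ≤ M) : BPAltMono e d G (2 * s) F := by
  classical
  obtain ⟨R, f, hf, hF1, hF2⟩ := h
  obtain ⟨f', h1, h2, h3⟩ := transfer_and (fun (j : Fin M) (k : κ) => (j, k)) pair_inj F htop
    (fun p : (Fin R → Bool) × (Fin d → Fin G → Bool) → Bool =>
      3 * (univ.filter (fun ρ => ¬ Alt e d (fun z => p (ρ, z) = true))).card ≤ 2 ^ R)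
    (fun p : (Fin R → Bool) × (Fin d → Fin G → Bool) → Bool =>
      3 * (univ.filter (fun ρ => Alt e d (fun z => p (ρ, z) = true))).card ≤ 2 ^ R)
    (fun p q hpq hp => le_trans (Nat.mul_le_mul_left 3 (card_le_card (fun ρ hρ => by
      rw [mem_filter] at hρ ⊢
      exact ⟨hρ.1, Alt.mono (fun z hz => hpq _ hz) hρ.2⟩))) hp)
    f hf hK
    (fun x _ hj => by convert hF1 x hj)
    (fun x _ hj => by
      obtain ⟨j, hj'⟩ := hj
      convert hF2 x (fun hc => hj' (hc j)))
  exact ⟨R, fun ρ z => f' (ρ, z), fun ρ z => h1 (ρ, z), fun x hx => by convert h2 x hx,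
    fun x hx => by convert h3 x hx⟩

theorem tower_const {e : Bool} {d m v k : ℕ} (hm : 1 ≤ m) (hk : 2 ≤ k) (hkv : k ≤ v) (b : Bool) :
    Tower e d m v k (fun _ => b) ↔ b = true := by
  have : Nonempty (Fin m) := ⟨⟨0, by omega⟩⟩
  unfold Tower
  cases lastQ e d
  · simp only [noIndep_const hk hkv]
    exact alt_const
  · simp only [hasClique_const hk hkv]
    exact alt_const

theorem bp_transfer_tower {e e' : Bool} {d' d m v k G s K M : ℕ} (hm : 1 ≤ m) (hk : 2 ≤ k)
    (hkv : k ≤ v) (h : BPAltNeg e' d' G s K (BigTower e M d m v k)) (hK : K ≤ M) :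
    BPAltMono e' d' G (2 * s) (Tower e d m v k) := by
  cases e
  · exact bp_transfer_and _ ((tower_const hm hk hkv true).mpr rfl) h hK
  · exact bp_transfer_or _ (fun hc => Bool.noConfusion ((tower_const hm hk hkv false).mp hc)) h hK

/-- Without random bits. -/
theorem altNeg_bp {ι : Type} {e : Bool} {d G s K : ℕ} {F : (ι → Bool) → Prop}
    (h : AltNeg e d G s K F) : BPAltNeg e d G s K F := by
  classical
  obtain ⟨f, ⟨p, w, n, C, h1, h2, h3⟩, hF⟩ := h
  refine ⟨0, fun q => f q.2, ⟨p, fun q => w q.2, n, C, h1, h2, fun q => h3 q.2⟩,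
    fun x hx => ?_, fun x hx => ?_⟩
  · have h1 : (univ.filter (fun _ρ : Fin 0 → Bool => ¬ Alt e d (fun z => f z x = true))) = ∅ := by
      rw [filter_eq_empty_iff]
      intro _ _ h
      exact h ((hF x).mp hx)
    rw [h1]
    simp
  · have h1 : (univ.filter (fun _ρ : Fin 0 → Bool => Alt e d (fun z => f z x = true))) = ∅ := by
      rw [filter_eq_empty_iff]
      intro _ _ h
      exact hx ((hF x).mpr h)
    rw [h1]
    simp

/-! ### upper bounds -/

/-- Merging an outer quantifier into the first block. -/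
theorem alt_pair {J U : Type} [Nonempty J] {n : ℕ} {R : J → (Fin (n + 1) → U) → Prop} :
    ((∃ j, Alt true (n + 1) (R j)) ↔ Alt true (n + 1)
      (fun w : Fin (n + 1) → J × U => R (w 0).1 (fun i => (w i).2))) ∧
    ((∀ j, Alt false (n + 1) (R j)) ↔ Alt false (n + 1)
      (fun w : Fin (n + 1) → J × U => R (w 0).1 (fun i => (w i).2))) := by
  have hsurj : Function.Surjective (Prod.snd : J × U → U) := Prod.snd_surjective
  have step : ∀ (e : Bool) (j : J) (u : U), Alt e n (fun w : Fin n → U => R j (Fin.cons u w)) ↔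
      Alt e n (fun w : Fin n → J × U => R ((Fin.cons (j, u) w : Fin (n + 1) → J × U) 0).1
        (fun i => ((Fin.cons (j, u) w : Fin (n + 1) → J × U) i).2)) := by
    intro e j u
    rw [alt_surj Prod.snd hsurj]
    apply Alt.congr
    intro w
    rw [cons_comp Prod.snd (j, u) w]
    simp
  constructor
  · constructor
    · rintro ⟨j, u, h⟩
      exact ⟨(j, u), (step false j u).mp h⟩
    · rintro ⟨⟨j, u⟩, h⟩
      exact ⟨j, u, (step false j u).mpr h⟩
  · constructor
    · rintro h ⟨j, u⟩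
      exact (step true j u).mp (h j u)
    · intro h j u
      exact (step true j u).mpr (h (j, u))

theorem copy_base {M : ℕ} {κ : Type} (j : Fin M) : ∀ b ∈ VB κ,
    b ∘ (fun (x : Fin M × κ → Bool) (p : κ) => x (j, p)) ∈ VB (Fin M × κ) := by
  rintro b (⟨b, rfl⟩ | ⟨i, rfl⟩)
  · exact Or.inl ⟨b, rfl⟩
  · exact Or.inr ⟨(j, i), rfl⟩

theorem exists_dec {M G G' : ℕ} (hM : 1 ≤ M) (hG : Nat.size M + G' ≤ G) :
    ∃ π : (Fin G → Bool) → Fin M × (Fin G' → Bool), Function.Surjective π := by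
  have : Nonempty (Fin M) := ⟨⟨0, by omega⟩⟩
  have hcard : Fintype.card (Fin M × (Fin G' → Bool)) ≤ Fintype.card (Fin G → Bool) := by
    rw [Fintype.card_prod, Fintype.card_fin, Fintype.card_fun, Fintype.card_fin,
      Fintype.card_fun, Fintype.card_fin, Fintype.card_bool]
    calc M * 2 ^ G' ≤ 2 ^ Nat.size M * 2 ^ G' := Nat.mul_le_mul_right _ (Nat.lt_size_self M).le
      _ = 2 ^ (Nat.size M + G') := by rw [pow_add]
      _ ≤ 2 ^ G := Nat.pow_le_pow_right (by norm_num) hG
  obtain ⟨emb⟩ := Function.Embedding.nonempty_of_card_le hcard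
  exact ⟨Function.invFun emb, Function.invFun_surjective emb.injective⟩

theorem altMono_big {κ : Type} {d G G' s M : ℕ} (hd : 1 ≤ d) (hM : 1 ≤ M)
    (hG : Nat.size M + G' ≤ G) (F : (κ → Bool) → Prop) :
    (AltMono true d G' s F →
      AltMono true d G s (fun x : Fin M × κ → Bool => ∃ j, F (fun p => x (j, p)))) ∧
    (AltMono false d G' s F →
      AltMono false d G s (fun x : Fin M × κ → Bool => ∀ j, F (fun p => x (j, p)))) := by
  obtain ⟨n, rfl⟩ : ∃ n, d = n + 1 := ⟨d - 1, by omega⟩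
  have : Nonempty (Fin M) := ⟨⟨0, by omega⟩⟩
  obtain ⟨π, hπ⟩ := exists_dec (G' := G') hM hG
  constructor
  · rintro ⟨f, hf, hF⟩
    refine ⟨fun z x => f (fun i => (π (z i)).2) (fun p => x ((π (z 0)).1, p)),
      fun z => (hf _).comp (fun (x : Fin M × κ → Bool) (p : κ) => x ((π (z 0)).1, p))
        (copy_base _), fun x => ?_⟩
    simp only [hF]
    refine (alt_pair (R := fun j z => f z (fun p => x (j, p)) = true)).1.trans ?_
    rw [alt_surj π hπ]
  · rintro ⟨f, hf, hF⟩
    refine ⟨fun z x => f (fun i => (π (z i)).2) (fun p => x ((π (z 0)).1, p)),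
      fun z => (hf _).comp (fun (x : Fin M × κ → Bool) (p : κ) => x ((π (z 0)).1, p))
        (copy_base _), fun x => ?_⟩
    simp only [hF]
    refine (alt_pair (R := fun j z => f z (fun p => x (j, p)) = true)).2.trans ?_
    rw [alt_surj π hπ]

theorem upper_big {e : Bool} {d m v k G M : ℕ} (hd : 1 ≤ d) (hm : 1 ≤ m) (hM : 1 ≤ M)
    (hG : Nat.size M + (Nat.size m + v) ≤ G) : AltMono e d G (k ^ 2) (BigTower e M d m v k) := by
  cases e
  · exact (altMono_big hd hM hG _).2 (upper hd hm le_rfl false)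
  · exact (altMono_big hd hM hG _).1 (upper hd hm le_rfl true)

/-! ### inclusions -/

theorem Helped.reindex {ι Z Z' : Type} {s K : ℕ} {f : Z → (ι → Bool) → Bool}
    (h : Helped s K f) (φ : Z' → Z) : Helped s K (fun z' => f (φ z')) := by
  obtain ⟨p, w, n, C, h1, h2, h3⟩ := h
  exact ⟨p, fun z' => w (φ z'), n, C, h1, h2, fun z' => h3 (φ z')⟩

theorem altNeg_succ {ι : Type} {e : Bool} {d G s K : ℕ} {F : (ι → Bool) → Prop}
    (h : AltNeg e d G s K F) : AltNeg e (d + 1) G s K F ∧ AltNeg (!e) (d + 1) G s K F := by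
  obtain ⟨f, hf, hF⟩ := h
  have h1 : Helped s K (fun z : Fin (d + 1) → Fin G → Bool => f (Fin.init z)) :=
    hf.reindex (fun z : Fin (d + 1) → Fin G → Bool => (Fin.init z : Fin d → Fin G → Bool))
  have h2 : Helped s K (fun z : Fin (d + 1) → Fin G → Bool => f (Fin.tail z)) :=
    hf.reindex (fun z : Fin (d + 1) → Fin G → Bool => (Fin.tail z : Fin d → Fin G → Bool))
  refine ⟨⟨fun z => f (Fin.init z), h1, fun x => ?_⟩, ⟨fun z => f (Fin.tail z), h2, fun x => ?_⟩⟩
  · rw [hF x]
    exact (alt_init (R := fun w => f w x = true)).symm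
  · rw [hF x]
    cases e
    · change _ ↔ ∃ u : Fin G → Bool, Alt false d (fun w : Fin d → Fin G → Bool =>
        f (Fin.tail (Fin.cons u w : Fin (d + 1) → Fin G → Bool)) x = true)
      simp only [Fin.tail_cons, exists_const]
    · change _ ↔ ∀ u : Fin G → Bool, Alt true d (fun w : Fin d → Fin G → Bool =>
        f (Fin.tail (Fin.cons u w : Fin (d + 1) → Fin G → Bool)) x = true)
      simp only [Fin.tail_cons, forall_const]

/-- Families of monotone circuits. -/
theorem helped_mono {ι Z : Type} {s K : ℕ} {f : Z → (ι → Bool) → Bool} (hK : 1 ≤ K)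
    (h : ∀ z, MComp (VB ι) s (f z)) : Helped s K f := by
  refine ⟨1, fun _ => 0, fun _ => 0, fun _ => .empty, fun _ => by simp [Circuit.size, Circuit.fanins],
    by simp [Circuit.fanins]; omega, fun z => ?_⟩
  have h1 := (h z).comp (B' := WB (Circuit.empty : Circuit ι 0)) (fun x => x) (fun b hb =>
    Or.inl hb)
  exact h1

/-! ### guesses -/

theorem guess_transfer {m v k g s K M : ℕ} (hm : 1 ≤ m) (hk : 2 ≤ k) (hkv : k ≤ v)
    (h : GuessNeg g s K (SomeAllCliques M m v k)) (hK : K ≤ M) :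
    Guess g (2 * s) (AllCliques m v k) := by
  obtain ⟨f, hf, hF⟩ := h
  obtain ⟨f', h1, h2, h3⟩ := transfer_or
    (fun (j : Fin M) (q : Fin m × Fin v × Fin v) => (j, q)) pair_inj
    (AllCliques m v k) (fun hc => by
      have := hc ⟨0, by omega⟩
      exact Bool.noConfusion ((hasClique_const hk hkv false).mp this))
    (fun p => ∃ z, p z = true) (fun p => ∀ z, p z = false)
    (fun p q hpq ⟨z, hz⟩ => ⟨z, hpq z hz⟩) f hf hK
    (fun x _ hj => (hF x).mp hj)
    (fun x _ hj z => by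
      by_contra hne
      rw [Bool.not_eq_false] at hne
      obtain ⟨j, hj'⟩ := (hF x).mpr ⟨z, hne⟩
      exact hj j hj')
  refine ⟨f', h1, fun y => ⟨h2 y, fun ⟨z, hz⟩ => ?_⟩⟩
  by_contra hno
  exact Bool.noConfusion (hz.symm.trans (h3 y hno z))

theorem guess_big {m v k g g' s M : ℕ} (hM : 1 ≤ M) (hg : Nat.size M + g' ≤ g)
    (h : Guess g' s (AllCliques m v k)) : Guess g s (SomeAllCliques M m v k) := by
  obtain ⟨π, hπ⟩ := exists_dec (G' := g') hM hg
  obtain ⟨f, hf, hF⟩ := h
  refine ⟨fun z x => f (π z).2 (fun p => x ((π z).1, p)),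
    fun z => (hf _).comp (fun (x : Fin M × Fin m × Fin v × Fin v → Bool) p => x ((π z).1, p))
      (copy_base _), fun x => ?_⟩
  unfold SomeAllCliques
  simp only [hF]
  constructor
  · rintro ⟨j, z', hz'⟩
    obtain ⟨z, hz⟩ := hπ (j, z')
    refine ⟨z, ?_⟩
    rw [hz]
    exact hz'
  · rintro ⟨z, hz⟩
    exact ⟨_, _, hz⟩

end Pool.Agent.H611R3
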