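import Pool.Agent.H611R3.Defs
import Pool.Agent.H611R2.BPDefs
import Pool.Agent.H611R2.GuessDefs

/-!
# Quantified bits in front of monotone circuits with few further gates: definitions
-/

namespace Pool.Agent.H611R3

open Pool.Agent.H611R2

/-- `AltNeg e d G s K F`: the predicate `F` on bit strings is given by `d` alternating blocks of
quantifiers over `G` bits each, the first block being existential if `e = true` and universal if
`e = false`, in front of a family `f z` of Boolean functions with `Helped s K f`. -/
def AltNeg {ι : Type} (e : Bool) (d G s K : ℕ) (F : (ι → Bool) → Prop) : Prop :=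
  ∃ f : (Fin d → Fin G → Bool) → (ι → Bool) → Bool, Helped s K f ∧
    ∀ x, F x ↔ Alt e d (fun z => f z x = true)

open Classical in
/-- `BPAltNeg e d G s K F`: for some `R` there is a randomized algorithm with `R` random bits `ρ`
which computes the predicate `F` with error probability at most one third on every input and
which, for fixed `ρ`, is given by `d` alternating blocks of quantifiers over `G` bits each (the
first block being existential if `e = true` and universal if `e = false`) in front of functions
`f (ρ, z)` with `Helped s K f`. -/
def BPAltNeg {ι : Type} (e : Bool) (d G s K : ℕ) (F : (ι → Bool) → Prop) : Prop :=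
  ∃ (R : ℕ) (f : (Fin R → Bool) × (Fin d → Fin G → Bool) → (ι → Bool) → Bool), Helped s K f ∧
    (∀ x, F x → 3 * (Finset.univ.filter
      (fun ρ => ¬ Alt e d (fun z => f (ρ, z) x = true))).card ≤ 2 ^ R) ∧
    (∀ x, ¬ F x → 3 * (Finset.univ.filter
      (fun ρ => Alt e d (fun z => f (ρ, z) x = true))).card ≤ 2 ^ R)

/-- The disjunction (for `e = true`) or conjunction (for `e = false`) of `M` towers: given are
`M * m ^ d` graphs on `v` vertices, indexed by `(j, (i₁, ..., i_d))`, and the predicate is
`Q₁ (j, i₁) Q₂ i₂ ... Q_d i_d` (alternating quantifiers, `Q₁ = ∃` for `e = true` and `Q₁ = ∀` for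
`e = false`), followed by the statement that the graph number `(j, (i₁, ..., i_d))` has a clique
with `k` vertices if `Q_d` is `∃`, and that it has no independent set with `k` vertices if `Q_d` is
`∀`. -/
def BigTower (e : Bool) (M d m v k : ℕ)
    (x : Fin M × (Fin d → Fin m) × Fin v × Fin v → Bool) : Prop :=
  match e with
  | true => ∃ j, Tower true d m v k (fun p => x (j, p))
  | false => ∀ j, Tower false d m v k (fun p => x (j, p))

/-- `GuessNeg g s K F`: the predicate `F` on bit strings can be decided by guessing `g` bits `z`
and then evaluating `f z`, where `Helped s K f`. -/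
def GuessNeg {ι : Type} (g s K : ℕ) (F : (ι → Bool) → Prop) : Prop :=
  ∃ f : (Fin g → Bool) → (ι → Bool) → Bool, Helped s K f ∧ ∀ x, F x ↔ ∃ z, f z x = true

/-- One of `M` lists of `m` graphs on `v` vertices consists of graphs all of which have cliques
with `k` vertices. -/
def SomeAllCliques (M m v k : ℕ) (x : Fin M × Fin m × Fin v × Fin v → Bool) : Prop :=
  ∃ j : Fin M, AllCliques m v k (fun p => x (j, p))

end Pool.Agent.H611R3
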