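import Pool.Agent.H520R2.NM

/-!
# Families of monotone circuits helped by circuits with few non-monotone gates
-/

namespace Pool.Agent.H611R3

open Pool.Agent.H520R2 Pool.Agent.H520R2.NM

/-- The functions of the input `x` which are free for a circuit that may read the wires of the
circuit `C`: constants, variables, and the wires of `C`. -/
def WB {ι : Type} {n : ℕ} (C : Circuit ι n) : Set ((ι → Bool) → Bool) :=
  VB ι ∪ {g | ∃ j, g = fun x => C.vals x j}

/-- `Helped s K f`, for a family of functions `f z` of the input `x`: there are `m` circuits
`C 0, ..., C (m - 1)` which read only `x` and consist of AND gates and OR gates of fan-in two and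
of arbitrary further gates (for instance NOT gates), and every member `f z` of the family is
computed from constants, the variables and the wires of one of these circuits, the circuit
`C (w z)`, by at most `s` AND and OR gates. In each of the circuits `C i` the number of AND and OR
gates plus the total number of inputs of the further gates is at most `s`. For each `i` consider
the product of the numbers `a + 1` over the further gates of `C i`, `a` being the number of inputs
of the gate (so this is `2 ^ t` for `t` NOT gates); the sum of these products minus one over all
`i` is less than `K`. -/
def Helped {ι Z : Type} (s K : ℕ) (f : Z → (ι → Bool) → Bool) : Prop :=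
  ∃ (m : ℕ) (w : Z → Fin m) (n : Fin m → ℕ) (C : ∀ i, Circuit ι (n i)),
    (∀ i, (C i).size + (C i).fanins.sum ≤ s) ∧
    ∑ i, (((C i).fanins.map (· + 1)).prod - 1) < K ∧
    ∀ z, MComp (WB (C (w z))) s (f z)

end Pool.Agent.H611R3
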