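import Pool.Agent.H611R3.Seg

/-!
# Lists of graphs: nondeterminism, randomness and few non-monotone gates
-/

namespace Pool.Agent.H611R3

open Finset Pool.Agent.H520R2 Pool.Agent.H520R2.NM Pool.Agent.H611R2 Pool.Agent.NPC

/-- The number of blocks in each of `K` segments. -/
theorem seg_le (N K w : ℕ) : K * (N / (w * K) * w) ≤ N := by
  calc K * (N / (w * K) * w) = N / (w * K) * (w * K) := by ring
    _ ≤ N := Nat.div_mul_le_self _ _

theorem one_le_of_helped {ι Z : Type} {s K : ℕ} {f : Z → (ι → Bool) → Bool}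
    (hf : Helped s K f) : 1 ≤ K := by
  obtain ⟨p, w, n, C, -, hC, -⟩ := hf
  omega

/-- Many guesses are needed: families of monotone circuits. -/
theorem coNondet_fam {n s r m : ℕ} (hr : 2 ≤ r) (hs : s < 2 ^ r) {g : ℕ}
    (hn : n = m * (200 * r ^ 8 * (200 * r ^ 8)))
    (f : (Fin g → Bool) → (Fin n → Bool) → Bool) (hf : ∀ z, MComp (VB (Fin n)) s (f z))
    (hF : ∀ x : Fin n → Bool, LC.HasClique (200 * r ^ 8) (r ^ 2) (List.ofFn x) ↔
      ∀ z, f z x = true) : m / 3 ≤ g := by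
  obtain ⟨v, hv⟩ : ∃ v, v = 200 * r ^ 8 := ⟨_, rfl⟩
  rw [← hv] at hn hF
  have hvpos : 0 < v := by rw [hv]; positivity
  have hm : m = n / (v * v) := by rw [hn, div_seg hvpos]
  have hk4 : 4 ≤ r ^ 2 := by nlinarith
  have hsq : Nat.sqrt (r ^ 2) = r := by rw [pow_two, Nat.sqrt_eq]
  have h4 := cover_lower (W := Fin v) (m := n / (v * v)) (k := r ^ 2) (s := s)
    (by rw [Fintype.card_fin, hv, ← pow_mul]) hk4 (by rw [hsq]; exact hs) (asmB n v)
    (asmB_mono n v) (fun y J g hg => asmB_base n v y J g hg) f hf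
    (fun G => (hF _).symm.trans (asmB_hasClique n v (r ^ 2) G))
  have h5 := two_pow_le h4
  rw [Fintype.card_fun, Fintype.card_fin, Fintype.card_bool] at h5
  rw [hm]
  exact (Nat.pow_le_pow_iff_right (by norm_num)).mp h5

/-- **Co-nondeterminism and few non-monotone gates.** -/
theorem coNondet_neg {N s r K g : ℕ} (hr : 2 ≤ r) (hs : 2 * s < 2 ^ r)
    (f : (Fin g → Bool) → (Fin N → Bool) → Bool) (hf : Helped s K f)
    (hF : ∀ x : Fin N → Bool, hdr (200 * r ^ 8) (r ^ 2) ++ List.ofFn x ∈ LC.ListClique ↔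
      ∀ z, f z x = true) : N / (120000 * r ^ 16 * K) ≤ g := by
  obtain ⟨v, hv⟩ : ∃ v, v = 200 * r ^ 8 := ⟨_, rfl⟩
  rw [← hv] at hF
  have hvpos : 0 < v := by rw [hv]; positivity
  have hk : 2 ≤ r ^ 2 := by nlinarith
  have hseg := seg_le N K (v * v)
  obtain ⟨m, hm⟩ : ∃ m, m = N / (v * v * K) := ⟨_, rfl⟩
  rw [← hm] at hseg
  have hgoal : N / (120000 * r ^ 16 * K) = m / 3 := by
    rw [hm, Nat.div_div_eq_div_mul]
    congr 1
    rw [hv]
    ring
  rw [hgoal]
  obtain ⟨f', h1, h2, h3⟩ := transfer_or (seg hseg) (seg_inj hseg)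
    (fun y => LC.HasClique v (r ^ 2) (List.ofFn y)) (hasClique_zero hk)
    (fun p => ∀ z, p z = true) (fun p => ∃ z, p z = false)
    (fun p q hpq hp z => hpq z (hp z)) f hf le_rfl
    (fun x hx hj => (hF x).mp ((hdr_mem _ _ _).mpr ((seg_hasClique hvpos hk hseg x hx).mpr hj)))
    (fun x hx hj => by
      by_contra hno
      push Not at hno
      have h4 := (hF x).mpr (fun z => by simpa using hno z)
      rw [hdr_mem, seg_hasClique hvpos hk hseg x hx] at h4
      obtain ⟨j, hj'⟩ := h4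
      exact hj j hj')
  refine coNondet_fam (n := m * (v * v)) hr hs (by rw [hv]) f' h1 (fun x => ?_)
  rw [← hv]
  constructor
  · exact h2 x
  · intro hz
    by_contra hno
    obtain ⟨z, hz'⟩ := h3 x hno
    exact Bool.noConfusion ((hz z).symm.trans hz')

/-- Few random strings lead to acceptance: families of monotone circuits. -/
theorem rp_fam {n s r m : ℕ} (hr : 2 ≤ r) (hs : s < 2 ^ r) (hm : 0 < m) {g : ℕ}
    (hn : n = m * (200 * r ^ 8 * (200 * r ^ 8)))
    (f : (Fin g → Bool) → (Fin n → Bool) → Bool) (hf : ∀ z, MComp (VB (Fin n)) s (f z))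
    (hF : ∀ x : Fin n → Bool, ¬ LA.AllHave (200 * r ^ 8) (r ^ 2) (List.ofFn x) →
      ∀ z, f z x = false) :
    ∃ x : Fin n → Bool, LA.AllHave (200 * r ^ 8) (r ^ 2) (List.ofFn x) ∧
      (univ.filter (fun z : Fin g → Bool => f z x = true)).card * 2 ^ (13 * m) ≤ 2 ^ g := by
  classical
  obtain ⟨v, hv⟩ : ∃ v, v = 200 * r ^ 8 := ⟨_, rfl⟩
  rw [← hv] at hn hF ⊢
  have hvpos : 0 < v := by rw [hv]; positivity
  have hm' : n / (v * v) = m := by rw [hn, div_seg hvpos]
  have hk4 : 4 ≤ r ^ 2 := by nlinarith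
  have hsq : Nat.sqrt (r ^ 2) = r := by rw [pow_two, Nat.sqrt_eq]
  have hMpos : 0 < n / (v * v) := by rw [hm']; exact hm
  obtain ⟨emb⟩ := exists_emb (W := Fin v) (k := r ^ 2) (by
    rw [Fintype.card_fin, hv, ← pow_mul])
  obtain ⟨c, hc⟩ := rp_lower (W := Fin v) (m := n / (v * v)) (k := r ^ 2) (s := s) hk4 le_rfl
    emb emb.injective (by rw [hsq]; exact hs) (asmB n v) (asmB_mono n v)
    (fun y J g hg => asmB_base n v y J g hg) f hf
    (fun G hG z => hF _ (by
      rw [LA.allHave_asmB n v (r ^ 2) hMpos]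
      push Not
      exact hG) z)
  refine ⟨asmB n v (fun i => posG emb (c i)), ?_, ?_⟩
  · rw [LA.allHave_asmB n v (r ^ 2) hMpos]
    intro i
    exact posG_not_cliqueFree emb emb.injective (c i)
  · rw [Fintype.card_fun, Fintype.card_fin, Fintype.card_bool] at hc
    refine le_trans (Nat.mul_le_mul_left _ ?_) hc
    rw [pow_mul, hm']
    apply Nat.pow_le_pow_left
    rw [hsq]
    have h1 : 2 ^ 6 ≤ r ^ 6 := Nat.pow_le_pow_left hr 6
    omega

theorem card_const_false {g : ℕ} :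
    (univ.filter (fun _z : Fin g → Bool => (false : Bool) = true)).card = 0 := by
  simp

/-- **One-sided error and few non-monotone gates.** -/
theorem rp_neg {N s r K g : ℕ} (hr : 2 ≤ r) (hs : 2 * s < 2 ^ r)
    (hN : 40000 * r ^ 16 * K ≤ N) (f : (Fin g → Bool) → (Fin N → Bool) → Bool)
    (hf : Helped s K f)
    (hF : ∀ x : Fin N → Bool, hdr (200 * r ^ 8) (r ^ 2) ++ List.ofFn x ∉ LA.ListAll →
      ∀ z, f z x = false) :
    ∃ x : Fin N → Bool, hdr (200 * r ^ 8) (r ^ 2) ++ List.ofFn x ∈ LA.ListAll ∧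
      (univ.filter (fun z : Fin g → Bool => f z x = true)).card *
          2 ^ (13 * (N / (40000 * r ^ 16 * K))) ≤ 2 ^ g := by
  classical
  have hK := one_le_of_helped hf
  obtain ⟨v, hv⟩ : ∃ v, v = 200 * r ^ 8 := ⟨_, rfl⟩
  have hvv : 40000 * r ^ 16 = v * v := by rw [hv]; ring
  rw [hvv] at hN ⊢
  rw [← hv] at hF ⊢
  have hvpos : 0 < v := by rw [hv]; positivity
  have hkv : r ^ 2 ≤ v := by
    rw [hv]
    calc r ^ 2 ≤ r ^ 8 := Nat.pow_le_pow_right (by omega) (by omega)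
      _ ≤ 200 * r ^ 8 := by omega
  have hseg := seg_le N K (v * v)
  obtain ⟨m, hm⟩ : ∃ m, m = N / (v * v * K) := ⟨_, rfl⟩
  rw [← hm] at hseg ⊢
  have hmpos : 0 < m := by
    rw [hm]
    exact Nat.div_pos hN (Nat.mul_pos (Nat.mul_pos hvpos hvpos) hK)
  by_contra hno
  push Not at hno
  obtain ⟨f', h1, h2, h3⟩ := transfer_and (seg hseg) (seg_inj hseg)
    (fun y => LA.AllHave v (r ^ 2) (List.ofFn y)) (allHave_one' hvpos hkv hmpos)
    (fun p : (Fin g → Bool) → Bool =>
      2 ^ g < (univ.filter (fun z : Fin g → Bool => p z = true)).card * 2 ^ (13 * m))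
    (fun p => ∀ z, p z = false) (fun p q hpq hp z => by
      by_contra hne
      rw [Bool.not_eq_false] at hne
      exact Bool.noConfusion ((hp z).symm.trans (hpq z hne))) f hf le_rfl
    (fun x hx hj => hno x ((hdrA_mem _ _ _).mpr
      ((seg_allHave hvpos hkv hK hmpos hseg x hx).mpr hj)))
    (fun x hx hj => hF x (fun hc => by
      rw [hdrA_mem, seg_allHave hvpos hkv hK hmpos hseg x hx] at hc
      obtain ⟨j, hj'⟩ := hj
      exact hj' (hc j)))
  obtain ⟨x, hx1, hx2⟩ := rp_fam (n := m * (v * v)) hr hs hmpos (by rw [hv]) f' h1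
    (fun x hx => h3 x (by rw [← hv] at hx; exact hx))
  rw [← hv] at hx1
  exact absurd hx2 (not_le.mpr (h2 x hx1))

/-- **Two-message proofs and few non-monotone gates.** -/
theorem am_neg {N s r K : ℕ} (hr : 2 ≤ r) (hs : 2 * s < 2 ^ r) {R g A B : ℕ}
    (f : (Fin R → Bool) × (Fin g → Bool) → (Fin N → Bool) → Bool) (hf : Helped s K f)
    (hno : ∀ x : Fin N → Bool, hdr (200 * r ^ 8) (r ^ 2) ++ List.ofFn x ∉ LC.ListClique →
      A ≤ (univ.filter (fun ρ : Fin R → Bool => ∃ z, f (ρ, z) x = false)).card)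
    (hyes : ∀ x : Fin N → Bool, hdr (200 * r ^ 8) (r ^ 2) ++ List.ofFn x ∈ LC.ListClique →
      (univ.filter (fun ρ : Fin R → Bool => ∃ z, f (ρ, z) x = false)).card ≤ B)
    (hAB : 2 ^ R + 4 * B < 4 * A) : N / (40000 * r ^ 16 * K) < 21 * (g + 3) := by
  classical
  obtain ⟨v, hv⟩ : ∃ v, v = 200 * r ^ 8 := ⟨_, rfl⟩
  have hvv : 40000 * r ^ 16 = v * v := by rw [hv]; ring
  rw [hvv]
  rw [← hv] at hno hyes
  have hvpos : 0 < v := by rw [hv]; positivity
  have hk : 2 ≤ r ^ 2 := by nlinarith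
  have hseg := seg_le N K (v * v)
  obtain ⟨m, hm⟩ : ∃ m, m = N / (v * v * K) := ⟨_, rfl⟩
  rw [← hm] at hseg ⊢
  obtain ⟨f', h1, h2, h3⟩ := transfer_or (seg hseg) (seg_inj hseg)
    (fun y => LC.HasClique v (r ^ 2) (List.ofFn y)) (hasClique_zero hk)
    (fun p : (Fin R → Bool) × (Fin g → Bool) → Bool =>
      (univ.filter (fun ρ : Fin R → Bool => ∃ z, p (ρ, z) = false)).card ≤ B)
    (fun p => A ≤ (univ.filter (fun ρ : Fin R → Bool => ∃ z, p (ρ, z) = false)).card)
    (fun p q hpq hp => le_trans (card_le_card (fun ρ hρ => by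
      rw [mem_filter] at hρ ⊢
      obtain ⟨h1, z, hz⟩ := hρ
      refine ⟨h1, z, ?_⟩
      by_contra hne
      rw [Bool.not_eq_false] at hne
      exact Bool.noConfusion (hz.symm.trans (hpq _ hne)))) hp) f hf le_rfl
    (fun x hx hj => by
      convert hyes x ((hdr_mem _ _ _).mpr ((seg_hasClique hvpos hk hseg x hx).mpr hj)))
    (fun x hx hj => by
      convert hno x (fun hc => by
        rw [hdr_mem, seg_hasClique hvpos hk hseg x hx] at hc
        obtain ⟨j, hj'⟩ := hc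
        exact hj j hj'))
  have h4 := am_list (N := m * (v * v)) hr hs (fun ρ z => f' (ρ, z)) (fun ρ z => h1 (ρ, z))
    (A := A) (B := B)
    (fun x hx => by
      rw [← hv, hdr_mem] at hx
      convert h3 x hx)
    (fun x hx => by
      rw [← hv, hdr_mem] at hx
      convert h2 x hx) hAB
  rw [hvv, div_seg hvpos] at h4
  exact h4

end Pool.Agent.H611R3
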