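import Pool.Agent.H611R3.Transfer
import Pool.Agent.H611R2.AMProt
import Pool.Agent.H611R2.RPCirc

/-!
# Cutting an input into segments
-/

namespace Pool.Agent.H611R3

open Pool.Agent.H520R2 Pool.Agent.H520R2.NM Pool.Agent.H611R2

/-- The positions of the segment number `j` of length `n`. -/
def seg {N M n : ℕ} (h : M * n ≤ N) (j : Fin M) (i : Fin n) : Fin N :=
  ⟨j.val * n + i.val, by
    have h1 : j.val * n + n ≤ M * n := by
      have : (j.val + 1) * n ≤ M * n := Nat.mul_le_mul_right _ j.isLt
      linarith [this, Nat.succ_mul j.val n]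
    have := i.isLt
    omega⟩

theorem seg_inj {N M n : ℕ} (h : M * n ≤ N) (j : Fin M) (i : Fin n) (j' : Fin M) (i' : Fin n)
    (he : seg h j i = seg h j' i') : j = j' ∧ i = i' := by
  have h1 : j.val * n + i.val = j'.val * n + i'.val := congrArg Fin.val he
  have hn : 0 < n := lt_of_le_of_lt (Nat.zero_le _) i.isLt
  have e1 : (j.val * n + i.val) / n = j.val := by
    rw [mul_comm, Nat.mul_add_div hn, Nat.div_eq_of_lt i.isLt, add_zero]
  have e2 : (j'.val * n + i'.val) / n = j'.val := by
    rw [mul_comm, Nat.mul_add_div hn, Nat.div_eq_of_lt i'.isLt, add_zero]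
  have e3 : j.val = j'.val := by rw [← e1, ← e2, h1]
  refine ⟨Fin.ext e3, Fin.ext ?_⟩
  rw [e3] at h1
  omega

/-- Position in block `j'` of a segment consisting of `m` blocks. -/
theorem pos_lt {v a b m j' : ℕ} (ha : a < v) (hb : b < v) (hj : j' < m) :
    j' * (v * v) + a * v + b < m * (v * v) := by
  have h1 : a * v + b < v * v := by
    have : (a + 1) * v ≤ v * v := Nat.mul_le_mul_right _ ha
    linarith [this, Nat.succ_mul a v]
  have h2 : (j' + 1) * (v * v) ≤ m * (v * v) := Nat.mul_le_mul_right _ hj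
  linarith [h2, Nat.succ_mul j' (v * v)]

theorem entry_seg {N M m v : ℕ} (h : M * (m * (v * v)) ≤ N) (x : Fin N → Bool) (j : Fin M)
    {j' a b : ℕ} (hj : j' < m) (ha : a < v) (hb : b < v) :
    LC.entry v (List.ofFn (fun i => x (seg h j i))) j' a b =
      LC.entry v (List.ofFn x) (j.val * m + j') a b := by
  unfold LC.entry
  have h1 := pos_lt ha hb hj
  have h2 : (j.val * m + j') * (v * v) + a * v + b =
      j.val * (m * (v * v)) + (j' * (v * v) + a * v + b) := by ring
  have h3 : j.val * (m * (v * v)) + (j' * (v * v) + a * v + b) < N :=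
    (seg h j ⟨_, h1⟩).isLt
  rw [h2, List.getD_eq_getElem _ _ (by simpa using h1), List.getElem_ofFn,
    List.getD_eq_getElem _ _ (by simpa using h3), List.getElem_ofFn]
  rfl

theorem div_seg {m v : ℕ} (hv : 0 < v) : m * (v * v) / (v * v) = m :=
  Nat.mul_div_cancel _ (Nat.mul_pos hv hv)

/-- Blocks of the whole input in terms of blocks of the segments. -/
theorem block_of_seg {N M m v : ℕ} (hv : 0 < v) (h : M * (m * (v * v)) ≤ N) (j : Fin M) {j' : ℕ}
    (hj : j' < m) : j.val * m + j' < N / (v * v) := by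
  rw [Nat.lt_iff_add_one_le, Nat.le_div_iff_mul_le (Nat.mul_pos hv hv)]
  refine le_trans ?_ h
  have h1 : j.val * m + j' + 1 ≤ M * m := by
    have : (j.val + 1) * m ≤ M * m := Nat.mul_le_mul_right _ j.isLt
    linarith [this, Nat.succ_mul j.val m]
  calc (j.val * m + j' + 1) * (v * v) ≤ (M * m) * (v * v) := Nat.mul_le_mul_right _ h1
    _ = M * (m * (v * v)) := by ring

/-- Outside the segments. -/
theorem out_seg {N M m v : ℕ} (h : M * (m * (v * v)) ≤ N) {b : Bool} {x : Fin N → Bool}
    (hx : Supp (seg h) b x) {J a c : ℕ} (hJ : M * m ≤ J)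
    (hlt : J * (v * v) + a * v + c < N) : LC.entry v (List.ofFn x) J a c = b := by
  unfold LC.entry
  rw [List.getD_eq_getElem _ _ (by simpa using hlt), List.getElem_ofFn]
  apply hx
  intro j k he
  have h1 : j.val * (m * (v * v)) + k.val = J * (v * v) + a * v + c := congrArg Fin.val he
  have h2 : (j.val + 1) * (m * (v * v)) ≤ M * (m * (v * v)) := Nat.mul_le_mul_right _ j.isLt
  have h3 : M * m * (v * v) ≤ J * (v * v) := Nat.mul_le_mul_right _ hJ
  have h4 := k.isLt
  have h5 : (j.val + 1) * (m * (v * v)) = j.val * (m * (v * v)) + m * (v * v) := by ring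
  have h6 : M * m * (v * v) = M * (m * (v * v)) := by ring
  omega

theorem seg_hasClique {N M m v k : ℕ} (hv : 0 < v) (hk : 2 ≤ k) (h : M * (m * (v * v)) ≤ N)
    (x : Fin N → Bool) (hx : Supp (seg h) false x) :
    LC.HasClique v k (List.ofFn x) ↔
      ∃ j : Fin M, LC.HasClique v k (List.ofFn (fun i => x (seg h j i))) := by
  constructor
  · rintro ⟨J, hJ, S, hS, hSv, hcl⟩
    rw [List.length_ofFn] at hJ
    obtain ⟨a, ha, b, hb, hab⟩ : ∃ a ∈ S, ∃ b ∈ S, a ≠ b :=
      Finset.one_lt_card.mp (by omega)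
    obtain ⟨a, ha, b, hb, hab⟩ : ∃ a ∈ S, ∃ b ∈ S, a < b := by
      rcases Nat.lt_or_gt_of_ne hab with h1 | h1
      · exact ⟨a, ha, b, hb, h1⟩
      · exact ⟨b, hb, a, ha, h1⟩
    have hlt : ∀ a ∈ S, ∀ b ∈ S, J * (v * v) + a * v + b < N := by
      intro a ha b hb
      have := pos_lt (hSv a ha) (hSv b hb) hJ
      exact lt_of_lt_of_le this (Nat.div_mul_le_self _ _)
    have hJM : J < M * m := by
      by_contra hge
      have h1 := out_seg h hx (not_lt.mp hge) (hlt a ha b hb)
      rw [hcl a ha b hb hab] at h1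
      exact Bool.noConfusion h1
    have hm : 0 < m := by
      rcases Nat.eq_zero_or_pos m with h0 | h0
      · subst h0
        simp at hJM
      · exact h0
    have hj : J / m < M := by
      rw [Nat.div_lt_iff_lt_mul hm]
      exact hJM
    have hJ' : J / m * m + J % m = J := by
      rw [mul_comm]
      exact Nat.div_add_mod J m
    refine ⟨⟨J / m, hj⟩, J % m, ?_, S, hS, hSv, fun a ha b hb hab => ?_⟩
    · rw [List.length_ofFn, div_seg hv]
      exact Nat.mod_lt _ hm
    · rw [entry_seg h x ⟨J / m, hj⟩ (Nat.mod_lt _ hm) (hSv a ha) (hSv b hb)]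
      change LC.entry v (List.ofFn x) (J / m * m + J % m) a b = true
      rw [hJ']
      exact hcl a ha b hb hab
  · rintro ⟨j, j', hj', S, hS, hSv, hcl⟩
    rw [List.length_ofFn, div_seg hv] at hj'
    refine ⟨j.val * m + j', ?_, S, hS, hSv, fun a ha b hb hab => ?_⟩
    · rw [List.length_ofFn]
      exact block_of_seg hv h j hj'
    · rw [← entry_seg h x j hj' (hSv a ha) (hSv b hb)]
      exact hcl a ha b hb hab

theorem seg_allHave {N M m v k : ℕ} (hv : 0 < v) (hkv : k ≤ v) (hM : 0 < M) (hm : 0 < m)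
    (h : M * (m * (v * v)) ≤ N) (x : Fin N → Bool) (hx : Supp (seg h) true x) :
    LA.AllHave v k (List.ofFn x) ↔
      ∀ j : Fin M, LA.AllHave v k (List.ofFn (fun i => x (seg h j i))) := by
  constructor
  · rintro ⟨-, hall⟩ j
    refine ⟨by rw [List.length_ofFn, div_seg hv]; exact hm, fun j' hj' => ?_⟩
    rw [List.length_ofFn, div_seg hv] at hj'
    obtain ⟨S, hS, hSv, hcl⟩ := hall (j.val * m + j') (by
      rw [List.length_ofFn]
      exact block_of_seg hv h j hj')
    refine ⟨S, hS, hSv, fun a ha b hb hab => ?_⟩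
    exact (entry_seg h x j hj' (hSv a ha) (hSv b hb)).trans (hcl a ha b hb hab)
  · intro hall
    refine ⟨?_, fun J hJ => ?_⟩
    · rw [List.length_ofFn]
      exact lt_of_le_of_lt (Nat.zero_le _) (block_of_seg hv h ⟨0, hM⟩ hm)
    · rw [List.length_ofFn] at hJ
      by_cases hJM : J < M * m
      · have hj : J / m < M := by
          rw [Nat.div_lt_iff_lt_mul hm]
          exact hJM
        have hJ' : J / m * m + J % m = J := by
          rw [mul_comm]
          exact Nat.div_add_mod J m
        obtain ⟨S, hS, hSv, hcl⟩ := (hall ⟨J / m, hj⟩).2 (J % m) (by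
          rw [List.length_ofFn, div_seg hv]
          exact Nat.mod_lt _ hm)
        refine ⟨S, hS, hSv, fun a ha b hb hab => ?_⟩
        have h1 := (entry_seg h x ⟨J / m, hj⟩ (Nat.mod_lt _ hm) (hSv a ha) (hSv b hb)).symm.trans
          (hcl a ha b hb hab)
        change LC.entry v (List.ofFn x) (J / m * m + J % m) a b = true at h1
        rw [hJ'] at h1
        exact h1
      · refine ⟨Finset.range k, Finset.card_range k, fun a ha => ?_, fun a ha b hb _ => ?_⟩
        · exact lt_of_lt_of_le (Finset.mem_range.mp ha) hkv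
        · apply out_seg h hx (not_lt.mp hJM)
          have := pos_lt (lt_of_lt_of_le (Finset.mem_range.mp ha) hkv)
            (lt_of_lt_of_le (Finset.mem_range.mp hb) hkv) hJ
          exact lt_of_lt_of_le this (Nat.div_mul_le_self _ _)

theorem hasClique_zero {n v k : ℕ} (hk : 2 ≤ k) :
    ¬ LC.HasClique v k (List.ofFn (fun _ : Fin n => false)) := by
  rintro ⟨J, hJ, S, hS, hSv, hcl⟩
  obtain ⟨a, ha, b, hb, hab⟩ : ∃ a ∈ S, ∃ b ∈ S, a ≠ b := Finset.one_lt_card.mp (by omega)
  have key : ∀ a b, LC.entry v (List.ofFn (fun _ : Fin n => false)) J a b = false := by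
    intro a b
    unfold LC.entry
    by_cases hlt : J * (v * v) + a * v + b < n
    · rw [List.getD_eq_getElem _ _ (by simpa using hlt), List.getElem_ofFn]
    · rw [List.getD_eq_default _ _ (by simpa using hlt)]
  rcases Nat.lt_or_gt_of_ne hab with h1 | h1
  · have := hcl a ha b hb h1
    rw [key] at this
    exact Bool.noConfusion this
  · have := hcl b hb a ha h1
    rw [key] at this
    exact Bool.noConfusion this

theorem allHave_one' {m v k : ℕ} (hv : 0 < v) (hkv : k ≤ v) (hm : 0 < m) :
    LA.AllHave v k (List.ofFn (fun _ : Fin (m * (v * v)) => true)) := by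
  refine ⟨by rw [List.length_ofFn, div_seg hv]; exact hm, fun J hJ => ?_⟩
  rw [List.length_ofFn, div_seg hv] at hJ
  refine ⟨Finset.range k, Finset.card_range k, fun a ha => ?_, fun a ha b hb _ => ?_⟩
  · exact lt_of_lt_of_le (Finset.mem_range.mp ha) hkv
  · have hlt := pos_lt (lt_of_lt_of_le (Finset.mem_range.mp ha) hkv)
      (lt_of_lt_of_le (Finset.mem_range.mp hb) hkv) hJ
    change LC.entry v (List.ofFn (fun _ : Fin (m * (v * v)) => true)) J a b = true
    unfold LC.entry
    rw [List.getD_eq_getElem _ _ (by simpa using hlt), List.getElem_ofFn]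

end Pool.Agent.H611R3
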